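import Pool.Agent.Helper7.KT.St

set_option autoImplicit false

/-!
# Project KT (MP_5176ab_co), module FEW (helper10): few sets have `σ` centres
-/

namespace Pool.Agent.Helper10.KT

open Finset SimpleGraph Filter Topology
open EX Pool.Agent.Helper7.KT

open scoped Classical

noncomputable section

private theorem an_sub {V : Type} (Γ : SimpleGraph V) (H : Finset (Finset V))
    (C x : Finset V) : An Γ H C x ⊆ C := by
  unfold An
  exact filter_subset _ _

private theorem an_mem {V : Type} (Γ : SimpleGraph V) (H : Finset (Finset V))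
    (C x : Finset V) (j : V) (h : j ∈ An Γ H C x) :
    j ∉ x ∧ insert j x ∈ H ∧ ∀ v ∈ x, Γ.Adj j v := by
  unfold An at h
  exact (mem_filter.1 h).2

/-- the box data given by common centres -/
private theorem box_data {U V : Type} [Fintype U] (k : ℕ) (G : SimpleGraph U)
    (H : Finset (Finset V)) (C A' : Finset V) (S : Set (Fin (k + 1) → V))
    (hS : ∀ x ∈ S, Function.Injective x ∧ A' ⊆ An (Γr (k + 1) G H) H C (univ.image x))
    (Y : Fin (k + 1) → Finset V) (hYne : ∀ l, (Y l).Nonempty)
    (hY : ∀ x, Box Y x → x ∈ S) :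
    BoxData (sN (k + 1) G) H Y (A' : Set V)
      (fun (j : {z // z ∈ A'}) (_ : Fin (k + 1) → V) => (j : V)) (fun _ => ∅) := by
  choose y0 hy0 using hYne
  have hAn : ∀ x, Box Y x → ∀ j ∈ A', j ∉ (univ.image x : Finset V) ∧
      insert j (univ.image x) ∈ H ∧ ∀ v ∈ (univ.image x : Finset V),
        (Γr (k + 1) G H).Adj j v := fun x hx j hj =>
    an_mem _ _ _ _ _ ((hS x (hY x hx)).2 hj)
  have hbox : ∀ l, ∀ v ∈ Y l, Box Y (Function.update y0 l v) := by
    intro l v hv l'
    by_cases h : l' = l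
    · subst h
      rw [Function.update_self]
      exact hv
    · rw [Function.update_of_ne h]
      exact hy0 l'
  refine ⟨?_, ?_, ?_, ?_, ?_, ?_, ?_, ?_⟩
  · intro l l' hll
    rw [Finset.disjoint_left]
    intro v hv hv'
    have hb : Box Y (Function.update (Function.update y0 l v) l' v) := by
      intro i
      by_cases h : i = l'
      · subst h
        rw [Function.update_self]
        exact hv'
      · rw [Function.update_of_ne h]
        exact hbox l v hv i
    have hinj := (hS _ (hY _ hb)).1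
    refine hll (hinj ?_)
    rw [Function.update_self, Function.update_of_ne hll, Function.update_self]
  · intro l y hy hyW
    have h1 := (hAn _ (hbox l y hy) y (mem_coe.1 hyW)).1
    refine h1 (mem_image.2 ⟨l, mem_univ l, ?_⟩)
    rw [Function.update_self]
  · intro j x _
    exact mem_coe.2 j.2
  · intro j x hx
    have h1 := (hAn x hx j.1 j.2).2.1
    exact h1
  · intro i j x _ hij h
    exact hij (Subtype.ext h)
  · intro j l l' _
    right
    intro x x' _ _ _ _
    rfl
  · intro j _ x hx l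
    have h1 := (hAn x hx j.1 j.2).2.2 (x l) (mem_image_of_mem x (mem_univ l))
    exact h1.2
  · intro j l hl
    exact absurd hl (notMem_empty l)

theorem hFEW : StFEW := by
  intro k hk U _ G s t hBp hG M ε hε
  obtain ⟨k', rfl⟩ : ∃ k', k = k' + 1 := ⟨k - 1, by omega⟩
  obtain ⟨A, hA, -, -⟩ := hBp
  obtain ⟨I, hI, hIc⟩ := exists_opt (k' + 1 + 1) (by omega) G
  have hcost : 1 ≤ cost G I := one_le_cost G hG I
  set σ := crosscutNumber (expansion (k' + 1 + 1) G) with hσ
  let i0 : Fin (k' + 1) := ⟨0, by omega⟩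
  let i1 : Fin (k' + 1) := ⟨1, by omega⟩
  let i2 : Fin (k' + 1) := ⟨2, by omega⟩
  have h01 : i0 ≠ i1 := by
    intro h
    exact absurd (congrArg Fin.val h) (by norm_num [i0, i1])
  have h02 : i0 ≠ i2 := by
    intro h
    exact absurd (congrArg Fin.val h) (by norm_num [i0, i2])
  have h12 : i1 ≠ i2 := by
    intro h
    exact absurd (congrArg Fin.val h) (by norm_num [i1, i2])
  obtain ⟨T, hT⟩ := box_embeds (k' + 1) σ (by omega) G I hI
    (fun u => if u ∈ A then i0 else i1)
    (by
      intro u v huv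
      have h := hA u v huv
      by_cases hu : u ∈ A
      · have hv : v ∉ A := h.1 hu
        show (if u ∈ A then i0 else i1) ≠ if v ∈ A then i0 else i1
        rw [if_pos hu, if_neg hv]
        exact h01
      · have hv : v ∈ A := by
          by_contra hv
          exact hu (h.2 hv)
        show (if u ∈ A then i0 else i1) ≠ if v ∈ A then i0 else i1
        rw [if_neg hu, if_pos hv]
        exact h01.symm) i2
    (by
      intro u _
      show (if u ∈ A then i0 else i1) ≠ i2
      split_ifs
      · exact h02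
      · exact h12) hcost
  have hη : 0 < ε / 2 ^ M := by positivity
  obtain ⟨n0, hn0⟩ := box_exists (k' + 1) (max T 1) (ε / 2 ^ M) hη
  filter_upwards [eventually_ge_atTop n0] with n hn
  intro H hFr C hC
  by_contra hcon
  rw [not_le] at hcon
  set X : Finset (Finset (Fin n)) := (powersetCard (k' + 1) univ).filter
    fun x : Finset (Fin n) => σ ≤ (An (Γr (k' + 1) G H) H C x).card with hX
  -- choice of the centres
  have hch : ∀ x : Finset (Fin n), ∃ B : Finset (Fin n), x ∈ X →
      B ⊆ An (Γr (k' + 1) G H) H C x ∧ B.card = σ := by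
    intro x
    by_cases hx : x ∈ X
    · obtain ⟨B, hB1, hB2⟩ := Finset.exists_subset_card_eq (mem_filter.1 hx).2
      exact ⟨B, fun _ => ⟨hB1, hB2⟩⟩
    · exact ⟨∅, fun h => absurd h hx⟩
  choose B hB using hch
  have hmaps : ∀ x ∈ X, B x ∈ C.powerset := by
    intro x hx
    rw [mem_powerset]
    exact (hB x hx).1.trans (an_sub _ _ _ _)
  obtain ⟨A', -, hA'⟩ := Finset.exists_le_card_fiber_of_nsmul_le_card_of_maps_to
    (M := ℝ) (b := ε / 2 ^ M * (n : ℝ) ^ (k' + 1)) hmaps ⟨∅, empty_mem_powerset C⟩ (by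
      rw [card_powerset, nsmul_eq_mul]
      push_cast
      have h1 : (2 : ℝ) ^ C.card ≤ 2 ^ M := pow_le_pow_right₀ (by norm_num) hC
      calc (2 : ℝ) ^ C.card * (ε / 2 ^ M * (n : ℝ) ^ (k' + 1))
          ≤ 2 ^ M * (ε / 2 ^ M * (n : ℝ) ^ (k' + 1)) :=
            mul_le_mul_of_nonneg_right h1 (by positivity)
        _ = ε * (n : ℝ) ^ (k' + 1) := by
            field_simp
        _ ≤ X.card := hcon.le)
  set S' : Finset (Finset (Fin n)) := X.filter fun x => B x = A' with hS'
  have hS'c : ∀ E ∈ S', E.card = k' + 1 := by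
    intro E hE
    exact (mem_powersetCard.1 (mem_filter.1 (mem_filter.1 hE).1).1).2
  have hcard : (UB.tup k' S').card = S'.card := UB.tup_card S' hS'c
  have hnpos : ε / 2 ^ M * (n : ℝ) ^ (k' + 1) ≤ ((UB.tup k' S').card : ℝ) := by
    rw [hcard]
    exact hA'
  obtain ⟨Y, hYc, hY⟩ := hn0 n hn (UB.tup k' S') hnpos
  have hYne : ∀ l, (Y l).Nonempty := by
    intro l
    rw [← card_pos, hYc l]
    exact lt_of_lt_of_le Nat.zero_lt_one (le_max_right _ _)
  have hS : ∀ x ∈ (UB.tup k' S' : Set (Fin (k' + 1) → Fin n)), Function.Injective x ∧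
      A' ⊆ An (Γr (k' + 1) G H) H C (@Finset.image (Fin (k' + 1)) (Fin n)
        (fun a b => Classical.propDecidable (a = b)) x univ) := by
    intro x hx
    obtain ⟨h1, h2⟩ := (mem_filter.1 (mem_coe.1 hx)).2
    obtain ⟨h3, h4⟩ := mem_filter.1 h2
    have h5 := (hB _ h3).1
    rw [h4] at h5
    refine ⟨h1.injective, ?_⟩
    have e : ∀ S1 S2 : Finset (Fin n), S1 = S2 → A' ⊆ An (Γr (k' + 1) G H) H C S2 →
        A' ⊆ An (Γr (k' + 1) G H) H C S1 := fun _ _ h h' => h ▸ h'
    refine e _ _ ?_ h5
    ext y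
    simp only [mem_image]
  have hσA : A'.card = σ := by
    obtain ⟨x, hx⟩ : (UB.tup k' S').Nonempty := by
      choose y0 hy0 using hYne
      exact ⟨y0, hY y0 hy0⟩
    obtain ⟨-, h2⟩ := (mem_filter.1 hx).2
    obtain ⟨h3, h4⟩ := mem_filter.1 h2
    rw [← h4]
    exact (hB _ h3).2
  have hD := box_data k' G H C A' (UB.tup k' S' : Set (Fin (k' + 1) → Fin n)) hS Y hYne
    (fun x hx => mem_coe.2 (hY x hx))
  refine hFr.2 (hT (Fin n) {z // z ∈ A'} H Y (A' : Set (Fin n)) _ _ ?_ hFr.1 hD ?_ ?_)
  · rw [Fintype.card_coe, hσA]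
  · intro l
    rw [hYc l]
    exact le_max_left _ _
  · rw [hIc]
    simp only [card_empty, Nat.cast_zero, zero_add, div_one, sum_const, card_univ,
      Fintype.card_coe, nsmul_eq_mul, mul_one]
    rw [hσA]
    linarith

end

end Pool.Agent.Helper10.KT
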